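import Pool.Agent.Y451.FM.Stm

/-!
# Counting in the group
-/

set_option autoImplicit false

open MeasureTheory

noncomputable section

namespace Pool.Agent.Y168.FM

open Pool.Agent.Y451.FM

theorem card_B (n N : ℕ) : (B n N).card = (2 * N + 1) ^ n := by
  unfold B
  rw [Pi.card_Icc]
  simp only [Int.card_Icc]
  rw [Finset.prod_const, Finset.card_univ, Fintype.card_fin]
  congr 1
  omega

theorem B_sub {n N M : ℕ} (h : N ≤ M) : B n N ⊆ B n M := by
  intro v hv
  rw [mem_B] at *
  intro i
  exact (hv i).trans (by exact_mod_cast h)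

theorem doneASY : S_ASY := by
  intro n s ε hε
  have h1 : Filter.Tendsto (fun N : ℕ => (2 * (s : ℝ)) / (2 * (N : ℝ) + 1)) Filter.atTop
      (nhds 0) := by
    apply Filter.Tendsto.div_atTop tendsto_const_nhds
    apply Filter.tendsto_atTop_add_const_right
    exact Filter.Tendsto.const_mul_atTop (by norm_num) tendsto_natCast_atTop_atTop
  have h2 : Filter.Tendsto (fun x : ℝ => (1 + x) ^ n - (1 - x) ^ n) (nhds 0) (nhds 0) := by
    have h3 : Continuous fun x : ℝ => (1 + x) ^ n - (1 - x) ^ n := by fun_prop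
    have h4 := h3.tendsto 0
    simpa using h4
  have h3 := (h2.comp h1).eventually (gt_mem_nhds hε)
  rw [Filter.eventually_atTop] at h3
  obtain ⟨N1, hN1⟩ := h3
  refine ⟨max N1 s, fun N hN => ?_⟩
  have hs : s ≤ N := (le_max_right _ _).trans hN
  have h4 := (hN1 N ((le_max_left _ _).trans hN)).le
  simp only [Function.comp_apply] at h4
  rw [Finset.card_sdiff_of_subset (B_sub (by omega)), Nat.cast_sub (Finset.card_le_card
    (B_sub (by omega))), card_B, card_B, card_B]
  have hpos : (0 : ℝ) < 2 * N + 1 := by positivity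
  have e1 : ((2 * (N + s) + 1 : ℕ) : ℝ) = (2 * N + 1) * (1 + 2 * s / (2 * N + 1)) := by
    push_cast
    field_simp
    ring
  have e2 : ((2 * (N - s) + 1 : ℕ) : ℝ) = (2 * N + 1) * (1 - 2 * s / (2 * N + 1)) := by
    push_cast [Nat.cast_sub hs]
    field_simp
    ring
  rw [Nat.cast_pow, Nat.cast_pow, Nat.cast_pow, e1, e2, mul_pow, mul_pow, ← mul_sub]
  push_cast
  rw [mul_comm ε]
  exact mul_le_mul_of_nonneg_left h4 (by positivity)

theorem doneCNT : S_CNT := by
  classical
  refine ⟨?_, ?_, ?_⟩
  · intro n N s hs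
    rw [mem_B] at hs
    obtain ⟨lo, hlo⟩ : ∃ lo : Gp n, lo = fun i => max (-((2 * N : ℕ) : ℤ)) (-(N : ℤ) - s i) :=
      ⟨_, rfl⟩
    obtain ⟨hi, hhi⟩ : ∃ hi : Gp n, hi = fun i => min ((2 * N : ℕ) : ℤ) ((N : ℤ) - s i) := ⟨_, rfl⟩
    have h1 : Finset.Icc lo hi ⊆ (B n (2 * N)).filter fun w => w + s ∈ B n N := by
      intro w hw
      rw [Finset.mem_Icc] at hw
      have h2 : ∀ i, lo i ≤ w i ∧ w i ≤ hi i := fun i => ⟨hw.1 i, hw.2 i⟩
      rw [Finset.mem_filter, mem_B, mem_B]
      constructor
      · intro i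
        have h3 := h2 i
        rw [hlo, hhi] at h3
        simp only at h3
        rw [abs_le]
        omega
      · intro i
        have h3 := h2 i
        rw [hlo, hhi] at h3
        simp only at h3
        rw [abs_le, Pi.add_apply]
        omega
    have h2 : (N + 1) ^ n ≤ (Finset.Icc lo hi).card := by
      rw [Pi.card_Icc]
      have h3 : (N + 1) ^ n = ∏ _i : Fin n, (N + 1) := by
        rw [Finset.prod_const, Finset.card_univ, Fintype.card_fin]
      rw [h3]
      refine Finset.prod_le_prod' fun i _ => ?_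
      rw [Int.card_Icc, hlo, hhi]
      simp only
      have h4 := hs i
      rw [abs_le] at h4
      omega
    rw [card_B]
    calc (2 * (2 * N) + 1) ^ n ≤ (4 * (N + 1)) ^ n := Nat.pow_le_pow_left (by omega) n
      _ = 4 ^ n * (N + 1) ^ n := mul_pow _ _ _
      _ ≤ _ := Nat.mul_le_mul_left _ (h2.trans (Finset.card_le_card h1))
  · intro n N D hD E z hE
    have h1 : E.card ≤ (Finset.univ : Finset (Fin n → Bool)).card := by
      apply Finset.card_le_card_of_injOn (fun g i => decide (0 < (z + g) i))
        (fun g _ => Finset.mem_univ _)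
      intro g hg h hh heq
      by_contra hne
      apply hD g (hE g hg).1 h (hE h hh).1 hne
      rw [mem_B]
      intro i
      have h2 := congrFun heq i
      simp only [decide_eq_decide] at h2
      have h3 := (mem_B.1 (hE g hg).2) i
      have h4 := (mem_B.1 (hE h hh).2) i
      rw [Pi.add_apply] at h2 h3 h4
      rw [Pi.add_apply] at h2
      rw [abs_le] at h3 h4
      rw [Pi.sub_apply, abs_le]
      omega
    rw [Finset.card_univ, Fintype.card_fun, Fintype.card_bool, Fintype.card_fin] at h1
    exact h1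
  · intro n N
    rw [card_B, card_B]
    exact ⟨by positivity, Nat.pow_le_pow_left (by omega) n⟩

end Pool.Agent.Y168.FM

end
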