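import Pool.Agent.Y451.FM.Stm

/-!
# The next stage: gluing of boxes
-/

set_option autoImplicit false

open MeasureTheory

noncomputable section

namespace Pool.Agent.Y168.FM

open Pool.Agent.Y451.FM

/-! ### definition by finitely many cases -/

section
variable {X ι β : Type}

open Classical in
/-- the value `f i x` if `x ∈ A i`, and `f0 x` if there is no such `i` -/
def sel (A : ι → Set X) (f : ι → X → β) (f0 : X → β) (x : X) : β :=
  if h : ∃ i, x ∈ A i then f h.choose x else f0 x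

theorem sel_mem {A : ι → Set X} (hu : ∀ x i j, x ∈ A i → x ∈ A j → i = j) (f : ι → X → β)
    (f0 : X → β) {x : X} {i : ι} (hi : x ∈ A i) : sel A f f0 x = f i x := by
  have h : ∃ i, x ∈ A i := ⟨i, hi⟩
  rw [sel, dif_pos h, hu x _ _ h.choose_spec hi]

theorem sel_not {A : ι → Set X} (f : ι → X → β) (f0 : X → β) {x : X} (h : ∀ i, x ∉ A i) :
    sel A f f0 x = f0 x := by
  rw [sel, dif_neg]
  rintro ⟨i, hi⟩
  exact h i hi

theorem sel_meas [MeasurableSpace X] [MeasurableSpace β] [Countable ι] {A : ι → Set X}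
    (hu : ∀ x i j, x ∈ A i → x ∈ A j → i = j) (hA : ∀ i, MeasurableSet (A i))
    {f : ι → X → β} {f0 : X → β} (hf : ∀ i, Measurable (f i)) (hf0 : Measurable f0) :
    Measurable (sel A f f0) := by
  intro s hs
  have h1 : sel A f f0 ⁻¹' s =
      (⋃ i, A i ∩ f i ⁻¹' s) ∪ ((⋃ i, A i)ᶜ ∩ f0 ⁻¹' s) := by
    ext x
    rw [Set.mem_preimage, Set.mem_union, Set.mem_iUnion, Set.mem_inter_iff, Set.mem_compl_iff,
      Set.mem_iUnion, Set.mem_preimage]
    by_cases h : ∃ i, x ∈ A i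
    · obtain ⟨i, hi⟩ := h
      rw [sel_mem hu f f0 hi]
      constructor
      · intro h2
        exact Or.inl ⟨i, hi, h2⟩
      · rintro (⟨j, hj, h2⟩ | ⟨h2, -⟩)
        · rw [hu x i j hi hj]
          exact h2
        · exact absurd ⟨i, hi⟩ h2
    · rw [sel_not f f0 (fun i hi => h ⟨i, hi⟩)]
      constructor
      · intro h2
        exact Or.inr ⟨h, h2⟩
      · rintro (⟨j, hj, h2⟩ | ⟨-, h2⟩)
        · exact absurd ⟨j, hj⟩ h
        · exact h2
  rw [h1]
  exact (MeasurableSet.iUnion fun i => (hA i).inter (hf i hs)).union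
    ((MeasurableSet.iUnion hA).compl.inter (hf0 hs))

end

/-! ### balls -/

section
variable {n : ℕ}

theorem B_add {N M : ℕ} {u v : Gp n} (hu : u ∈ B n N) (hv : v ∈ B n M) : u + v ∈ B n (N + M) := by
  rw [mem_B] at *
  intro i
  have h1 := hu i
  have h2 := hv i
  rw [Pi.add_apply]
  push_cast
  exact (abs_add_le _ _).trans (add_le_add h1 h2)

theorem B_neg {N : ℕ} {u : Gp n} (hu : u ∈ B n N) : -u ∈ B n N := by
  rw [mem_B] at *
  intro i
  rw [Pi.neg_apply, abs_neg]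
  exact hu i

theorem B_mono {N M : ℕ} (h : N ≤ M) {u : Gp n} (hu : u ∈ B n N) : u ∈ B n M := by
  rw [mem_B] at *
  intro i
  exact (hu i).trans (by exact_mod_cast h)

theorem sh_sh {A : Type} (g h : Gp n) (w : Gp n → A) : sh g (sh h w) = sh (g + h) w := by
  funext u
  simp only [sh, add_assoc]

end

/-! ### the construction -/

section
variable {n k : ℕ}

/-- extension of a pattern by `d` -/
def ext {t : ℕ} (d : Fin k) (π : {v : Gp n // v ∈ B n t} → Fin k) : Gp n → Fin k := fun v =>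
  if h : v ∈ B n t then π ⟨v, h⟩ else d

theorem ext_rs {t : ℕ} (d : Fin k) (ω : Gp n → Fin k) {v : Gp n} (hv : v ∈ B n t) :
    ext (t := t) d (fun u => ω u.1) v = ω v := by
  rw [ext, dif_pos hv]

end

theorem done : S_NEW := by
  classical
  intro n k ρ Pr hPr X _ _ a ha S N hN d C hC hsep w Q Φ hΦ
  -- the positions
  obtain ⟨A, hAdef⟩ : ∃ A : {v : Gp n // v ∈ B n N} → Set X,
    A = fun v => {x | a (-(v.1 + w)) x ∈ C} := ⟨_, rfl⟩
  have hA : ∀ (v : {v : Gp n // v ∈ B n N}) (x : X), x ∈ A v ↔ a (-(v.1 + w)) x ∈ C := by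
    intro v x
    rw [hAdef]
    rfl
  have hAm : ∀ v, MeasurableSet (A v) := by
    intro v
    rw [hAdef]
    exact ha.meas _ hC
  have hu : ∀ x i j, x ∈ A i → x ∈ A j → i = j := by
    intro x i j hi hj
    rw [hA] at hi hj
    by_contra hne
    have h1 : a (i.1 - j.1) (a (-(i.1 + w)) x) ∈ C := by
      rw [← ha.add]
      have : i.1 - j.1 + -(i.1 + w) = -(j.1 + w) := by abel
      rw [this]
      exact hj
    refine hsep _ hi (i.1 - j.1) ?_ ?_ h1
    · rw [sub_eq_add_neg, two_mul]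
      exact B_add i.2 (B_neg j.2)
    · intro h0
      exact hne (Subtype.ext (sub_eq_zero.1 h0))
  -- the type
  have htym : ∀ z : Gp n, Measurable fun x => tyX S N (a z x) := by
    intro z
    apply Measurable.prodMk
    · exact measurable_pi_iff.2 fun v => S.mR.comp ((ha.meas _).comp (ha.meas _))
    · exact measurable_pi_iff.2 fun v => S.mψ.comp ((ha.meas _).comp (ha.meas _))
  have hG : ∀ (G : Ty n k S.t N → Fin k) (z : Gp n), Measurable fun x => G (tyX S N (a z x)) :=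
    fun G z => (measurable_of_countable G).comp (htym z)
  obtain ⟨t', ht'⟩ : ∃ t', t' = 2 * N + S.t := ⟨_, rfl⟩
  -- the rule
  obtain ⟨RN, hRN⟩ : ∃ RN : {v : Gp n // v ∈ B n N} → X → Rule n k t', RN = fun v x π =>
    Φ (tyX S N (a (-v.1) x)) (tb (TT d (tyX S N (a (-v.1) x))) (sh (-v.1) (ext d π))) v.1 :=
    ⟨_, rfl⟩
  obtain ⟨R0, hR0⟩ : ∃ R0 : X → Rule n k t', R0 = fun x π => ev (S.R x) (ext d π) := ⟨_, rfl⟩
  have hRNm : ∀ v, Measurable (RN v) := by
    intro v
    rw [hRN]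
    refine measurable_pi_iff.2 fun π => ?_
    exact hG (fun τ => Φ τ (tb (TT d τ) (sh (-v.1) (ext d π))) v.1) (-v.1)
  have hR0m : Measurable R0 := by
    rw [hR0]
    refine measurable_pi_iff.2 fun π => ?_
    exact (measurable_pi_apply _).comp S.mR
  obtain ⟨R', hR'⟩ : ∃ R' : X → Rule n k t', R' = sel A RN R0 := ⟨_, rfl⟩
  obtain ⟨ψ', hψ'⟩ : ∃ ψ' : X → Fin k,
    ψ' = sel A (fun v x => Q (tyX S N (a (-v.1) x)) v.1) S.ψ := ⟨_, rfl⟩
  have hR'm : Measurable R' := by
    rw [hR']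
    exact sel_meas hu hAm hRNm hR0m
  have hψ'm : Measurable ψ' := by
    rw [hψ']
    exact sel_meas hu hAm (fun v => hG (fun τ => Q τ v.1) (-v.1)) S.mψ
  -- the formulas
  have hf1 : ∀ (x : X) (v : {v : Gp n // v ∈ B n N}), x ∈ A v → ∀ ω : Gp n → Fin k,
      ev (R' x) ω = Φ (tyX S N (a (-v.1) x))
        (tb (TT d (tyX S N (a (-v.1) x))) (sh (-v.1) ω)) v.1 := by
    intro x v hv ω
    have h1 : R' x = RN v x := by
      rw [hR', sel_mem hu RN R0 hv]
    rw [ev, h1, hRN]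
    refine congrFun ((hΦ (a (-v.1) x)).1 _ _ fun u hu1 => ?_) v.1
    have hu2 : u ∈ B n N := (Finset.mem_sdiff.1 hu1).1
    simp only [tb, ev, sh]
    congr 1
    funext s
    apply ext_rs
    rw [ht']
    have h2 := B_add (B_add s.2 hu2) (B_neg v.2)
    have h3 : S.t + N + N = 2 * N + S.t := by ring
    rw [h3] at h2
    exact h2
  have hf2 : ∀ x : X, (∀ v, x ∉ A v) → ∀ ω : Gp n → Fin k, ev (R' x) ω = ev (S.R x) ω := by
    intro x hx ω
    have h1 : R' x = R0 x := by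
      rw [hR', sel_not RN R0 hx]
    rw [ev, h1, hR0]
    simp only [ev]
    congr 1
    funext s
    apply ext_rs
    exact B_mono (by omega) s.2
  -- validity
  have hval : ∀ x ω, Sol Pr ω → Sol Pr (fun u => ev (R' (a u x)) (sh u ω)) := by
    intro x ω hω
    obtain ⟨τ, hτ⟩ : ∃ τ : Gp n → Fin k, τ = fun u => ev (S.R (a u x)) (sh u ω) := ⟨_, rfl⟩
    have hτS : Sol Pr τ := by
      rw [hτ]
      exact S.val x ω hω
    obtain ⟨τ', hτ'⟩ : ∃ τ' : Gp n → Fin k, τ' = fun u => ev (R' (a u x)) (sh u ω) := ⟨_, rfl⟩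
    rw [← hτ']
    obtain ⟨W, hW⟩ : ∃ W : Gp n → Gp n → Fin k,
      W = fun z => tb (TT d (tyX S N (a z x))) (sh z ω) := ⟨_, rfl⟩
    have hWτ : ∀ z, ∀ v ∈ B n N, W z v = τ (v + z) := by
      intro z v hv
      rw [hW, hτ]
      simp only [tb]
      rw [sh_sh, TT, dif_pos hv, ha.add]
      rfl
    have hτ1 : ∀ (u : Gp n) (v : Gp n) (hv : v ∈ B n N), a u x ∈ A ⟨v, hv⟩ →
        τ' u = Φ (tyX S N (a (u - v) x)) (W (u - v)) v := by
      intro u v hv hx
      have h1 : τ' u = ev (R' (a u x)) (sh u ω) := by rw [hτ']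
      have h2 : a (-v) (a u x) = a (u - v) x := by
        rw [← ha.add]
        congr 1
        abel
      have h3 : sh (-v) (sh u ω) = sh (u - v) ω := by
        rw [sh_sh]
        congr 1
        abel
      rw [h1, hf1 _ _ hx]
      simp only
      rw [h2, h3, hW]
    have hfill : ∀ z, (∀ v ∈ collar n ρ N, Φ (tyX S N (a z x)) (W z) v = τ (v + z)) ∧
        ∀ g, win n ρ N g → Pr (sh g (Φ (tyX S N (a z x)) (W z))) := by
      intro z
      have h1 : ∀ g, win n ρ N g → Pr (sh g (W z)) := by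
        intro g hg
        refine hPr (sh (g + z) τ) _ (fun v hv => ?_) (hτS _)
        simp only [sh]
        rw [hWτ z _ (hg v hv), add_assoc]
      obtain ⟨h2, h3⟩ := (hΦ (a z x)).2 (W z) h1
      refine ⟨fun v hv => ?_, h3⟩
      rw [h2 v hv, hWτ z v (Finset.mem_sdiff.1 hv).1]
    intro g
    by_cases hcase : ∃ u0 ∈ B n ρ, ∃ v : {v : Gp n // v ∈ B n N}, v.1 ∈ B n (N - 2 * ρ) ∧
        a (u0 + g) x ∈ A v
    · obtain ⟨u0, hu0, v, hv, hx⟩ := hcase
      obtain ⟨z, hz⟩ : ∃ z, z = u0 + g - v.1 := ⟨_, rfl⟩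
      have hin : ∀ u1 ∈ B n ρ, u1 + (g - z) ∈ B n N := by
        intro u1 hu1
        have h1 : u1 + (g - z) = u1 + -u0 + v.1 := by
          rw [hz]
          abel
        rw [h1]
        refine B_mono ?_ (B_add (B_add hu1 (B_neg hu0)) hv)
        omega
      have hC0 : a (z - w) x ∈ C := by
        rw [hA, ← ha.add] at hx
        have h1 : -(v.1 + w) + (u0 + g) = z - w := by
          rw [hz]
          abel
        rwa [h1] at hx
      refine hPr (sh (g - z) (Φ (tyX S N (a z x)) (W z))) _ (fun u1 hu1 => ?_)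
        ((hfill z).2 (g - z) hin)
      simp only [sh]
      have h2 : a (u1 + g) x ∈ A ⟨u1 + (g - z), hin u1 hu1⟩ := by
        rw [hA, ← ha.add]
        have h1 : -(u1 + (g - z) + w) + (u1 + g) = z - w := by abel
        rw [h1]
        exact hC0
      rw [hτ1 _ _ _ h2]
      have h3 : u1 + g - (u1 + (g - z)) = z := by abel
      rw [h3]
    · refine hPr (sh g τ) _ (fun u1 hu1 => ?_) (hτS g)
      simp only [sh]
      by_cases hx : ∃ v : {v : Gp n // v ∈ B n N}, a (u1 + g) x ∈ A v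
      · obtain ⟨v, hv⟩ := hx
        have h1 : v.1 ∈ collar n ρ N := by
          rw [collar, Finset.mem_sdiff]
          exact ⟨v.2, fun h => hcase ⟨u1, hu1, v, h, hv⟩⟩
        rw [hτ1 (u1 + g) v.1 v.2 hv, (hfill (u1 + g - v.1)).1 v.1 h1]
        congr 1
        abel
      · have h1 : τ' (u1 + g) = ev (R' (a (u1 + g) x)) (sh (u1 + g) ω) := by rw [hτ']
        rw [h1, hf2 _ (fun v hv => hx ⟨v, hv⟩), hτ]
  refine ⟨⟨t', R', ψ', hR'm, hψ'm, hval⟩, ?_, ?_⟩
  · intro x v hv hx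
    have hx' : x ∈ A ⟨v, hv⟩ := (hA _ _).2 hx
    refine ⟨fun ω => hf1 x ⟨v, hv⟩ hx' ω, ?_⟩
    show ψ' x = _
    rw [hψ', sel_mem hu _ _ hx']
  · intro x hx
    have hx' : ∀ v, x ∉ A v := fun v h => hx v.1 v.2 ((hA _ _).1 h)
    refine ⟨fun ω => hf2 x hx' ω, ?_⟩
    show ψ' x = _
    rw [hψ', sel_not _ _ hx']

end Pool.Agent.Y168.FM

end
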